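import Pool.Agent.Helper1.T1.Goals3

/-!
PROJECT T1 (MP_d3128a_ag), packets PQ0 and PQ (helper51).
-/

set_option autoImplicit false

noncomputable section

namespace Pool.Agent.Helper51.T1.PQ0

/-- PQ0. -/
theorem t : Pool.Agent.Helper1.T1.S_PQ0 := by
  intro v R hv hvR
  have hv0 : (0 : ℝ) < v := by linarith
  have hR0 : (0 : ℝ) < R := by linarith
  have hE0 : 0 < v ^ 2 / R := by positivity
  have hEv : v ^ 2 / R < v := by
    rw [div_lt_iff₀ hR0]
    nlinarith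
  by_cases hE : 1 < v ^ 2 / R
  · -- `p = 1`
    have h1 : (1 : ℕ) ≤ ⌈v⌉₊ := Nat.one_le_ceil_iff.2 hv0
    refine ⟨1, ⌈v⌉₊ - 1, le_refl 1, Nat.coprime_one_left _, ?_, ?_, ?_, fun _ => rfl⟩
    · push_cast
      linarith
    · have h2 : v ≤ (⌈v⌉₊ : ℝ) := Nat.le_ceil v
      rw [Nat.cast_sub h1]
      push_cast
      linarith
    · have h2 : (⌈v⌉₊ : ℝ) < v + 1 := Nat.ceil_lt_add_one hv0.le
      rw [Nat.cast_sub h1]
      push_cast
      linarith
  · rw [not_lt] at hE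
    have h1 : (1 : ℝ) ≤ R / v := by
      rw [le_div_iff₀ hv0]
      linarith
    have h2 : (1 : ℕ) ≤ ⌊R / v⌋₊ := (Nat.one_le_floor_iff _).2 h1
    have hk : v / (v ^ 2 / R) = R / v := by
      field_simp
    refine ⟨⌊R / v⌋₊, 1, h2, Nat.coprime_one_right _, ?_, ?_, ?_, fun h => absurd h (not_lt.2 hE)⟩
    · have h3 : (⌊R / v⌋₊ : ℝ) ≤ R / v := Nat.floor_le (by positivity)
      have h4 : R / v * (v ^ 2 / R) = v := by
        field_simp
      calc (⌊R / v⌋₊ : ℝ) * (v ^ 2 / R) ≤ R / v * (v ^ 2 / R) :=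
            mul_le_mul_of_nonneg_right h3 hE0.le
        _ = v := h4
    · have h3 : R / v < (⌊R / v⌋₊ : ℝ) + 1 := Nat.lt_floor_add_one _
      have h4 : R / v * (v ^ 2 / R) = v := by
        field_simp
      have h5 : R / v * (v ^ 2 / R) < ((⌊R / v⌋₊ : ℝ) + 1) * (v ^ 2 / R) :=
        mul_lt_mul_of_pos_right h3 hE0
      push_cast
      rw [h4] at h5
      nlinarith
    · push_cast
      exact hv

/-- PQ. -/
theorem pq : Pool.Agent.Helper1.T1.S_PQ := by
  intro v R hv hvR _ _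
  obtain ⟨p, q, h1, h2, h3, h4, h5, -⟩ := t v R hv hvR
  exact ⟨p, q, h1, h2, h3, h4, h5⟩

end Pool.Agent.Helper51.T1.PQ0
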